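import Pool.Agent.Z15P.Z15.H.GUN

/-!
Existence of the Gauss extension.
-/

set_option autoImplicit false
set_option linter.all false

open FF FF.PP Polynomial Pool.Agent.Z15P.Z15.H.Stm

namespace Pool.Agent.Z15P.Z15.H

section gauss

variable {k E : Type} [Field k] [Field E] [Algebra k E] (t : Place k E)

theorem gauss_prim {p q : E[X]} (hp : ∀ i, t.Reg (p.coeff i)) (hq : ∀ i, t.Reg (q.coeff i))
    {i j : ℕ} (hi : t.red (p.coeff i) ≠ 0) (hj : t.red (q.coeff j) ≠ 0) :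
    (∀ n, t.Reg ((p * q).coeff n)) ∧ ∃ n, t.red ((p * q).coeff n) ≠ 0 := by
  have hlift : ∀ p : E[X], (∀ i, t.Reg (p.coeff i)) → ∃ P : t.O[X], P.map t.O.subtype = p := by
    intro p hp
    have h : p ∈ lifts t.O.subtype := by
      rw [lifts_iff_coeff_lifts]
      intro n
      exact ⟨⟨p.coeff n, hp n⟩, rfl⟩
    exact (mem_lifts p).1 h
  obtain ⟨P, rfl⟩ := hlift p hp
  obtain ⟨Q, rfl⟩ := hlift q hq
  have hc : ∀ (R : t.O[X]) (n : ℕ), t.Reg ((R.map t.O.subtype).coeff n) ∧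
      t.red ((R.map t.O.subtype).coeff n) = (R.map t.resHom).coeff n := by
    intro R n
    rw [coeff_map, coeff_map]
    have h1 : t.Reg (t.O.subtype (R.coeff n)) := (R.coeff n).2
    exact ⟨h1, t.red_of_reg h1⟩
  rw [← Polynomial.map_mul]
  refine ⟨fun n => (hc _ n).1, ?_⟩
  have h1 : P.map t.resHom ≠ 0 := by
    intro h
    rw [(hc P i).2, h, coeff_zero] at hi
    exact hi rfl
  have h2 : Q.map t.resHom ≠ 0 := by
    intro h
    rw [(hc Q j).2, h, coeff_zero] at hj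
    exact hj rfl
  have h3 : (P * Q).map t.resHom ≠ 0 := by
    rw [Polynomial.map_mul]
    exact mul_ne_zero h1 h2
  by_contra hcon
  push Not at hcon
  apply h3
  ext n
  rw [← (hc _ n).2, hcon n, coeff_zero]

/-- `n` is the minimal order of the coefficients of `p` -/
def Mn (p : E[X]) (n : ℤ) : Prop :=
  (∃ i, p.coeff i ≠ 0 ∧ t.ord (p.coeff i) = n) ∧ ∀ j, p.coeff j ≠ 0 → n ≤ t.ord (p.coeff j)

variable {t}

theorem Mn.ne_zero {p : E[X]} {n : ℤ} (h : Mn t p n) : p ≠ 0 := by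
  rintro rfl
  obtain ⟨⟨i, hi, -⟩, -⟩ := h
  exact hi (coeff_zero i)

theorem Mn.unique {p : E[X]} {n m : ℤ} (h : Mn t p n) (h' : Mn t p m) : n = m := by
  obtain ⟨⟨i, hi, hi'⟩, h1⟩ := h
  obtain ⟨⟨j, hj, hj'⟩, h2⟩ := h'
  have h3 := h1 j hj
  have h4 := h2 i hi
  omega

theorem Mn.exists {p : E[X]} (h : p ≠ 0) : ∃ n, Mn t p n := by
  classical
  obtain ⟨i, hi, hmin⟩ := Finset.exists_min_image p.support (fun i => t.ord (p.coeff i))
    (by rwa [Finset.nonempty_iff_ne_empty, Ne, support_eq_empty])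
  rw [mem_support_iff] at hi
  exact ⟨_, ⟨i, hi, rfl⟩, fun j hj => hmin j (mem_support_iff.2 hj)⟩

theorem Mn.mul {p q : E[X]} {n m : ℤ} (h : Mn t p n) (h' : Mn t q m) : Mn t (p * q) (n + m) := by
  obtain ⟨⟨i, hi, hi'⟩, h1⟩ := h
  obtain ⟨⟨j, hj, hj'⟩, h2⟩ := h'
  have hsc : ∀ (p : E[X]) (n : ℤ) (i : ℕ), p.coeff i ≠ 0 → t.ord (p.coeff i) = n →
      (∀ j, p.coeff j ≠ 0 → n ≤ t.ord (p.coeff j)) →
      (∀ l, t.Reg ((C (p.coeff i)⁻¹ * p).coeff l)) ∧ t.red ((C (p.coeff i)⁻¹ * p).coeff i) ≠ 0 := by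
    intro p n i hi hi' h1
    constructor
    · intro l
      rw [coeff_C_mul]
      by_cases hl : p.coeff l = 0
      · rw [hl, mul_zero]
        exact t.reg_zero
      · right
        rw [t.ord_mul (inv_ne_zero hi) hl, t.ord_inv]
        have := h1 l hl
        omega
    · rw [coeff_C_mul, inv_mul_cancel₀ hi, t.red_one]
      exact one_ne_zero
  obtain ⟨h3, h4⟩ := hsc p n i hi hi' h1
  obtain ⟨h5, h6⟩ := hsc q m j hj hj' h2
  obtain ⟨h7, l, h8⟩ := gauss_prim t h3 h5 h4 h6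
  have h9 : ∀ l, (C (p.coeff i)⁻¹ * p * (C (q.coeff j)⁻¹ * q)).coeff l =
      ((p.coeff i)⁻¹ * (q.coeff j)⁻¹) * (p * q).coeff l := by
    intro l
    have h10 : C (p.coeff i)⁻¹ * p * (C (q.coeff j)⁻¹ * q) =
        C ((p.coeff i)⁻¹ * (q.coeff j)⁻¹) * (p * q) := by
      rw [C_mul]
      ring
    rw [h10, coeff_C_mul]
  have hc0 : (p.coeff i)⁻¹ * (q.coeff j)⁻¹ ≠ 0 := mul_ne_zero (inv_ne_zero hi) (inv_ne_zero hj)
  have hco : t.ord ((p.coeff i)⁻¹ * (q.coeff j)⁻¹) = -(n + m) := by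
    rw [t.ord_mul (inv_ne_zero hi) (inv_ne_zero hj), t.ord_inv, t.ord_inv]
    omega
  refine ⟨⟨l, ?_⟩, fun l' hl' => ?_⟩
  · rw [h9] at h8
    have h10 : (p * q).coeff l ≠ 0 := by
      intro h0
      rw [h0, mul_zero, t.red_zero] at h8
      exact h8 rfl
    refine ⟨h10, ?_⟩
    have h11 := h7 l
    rw [h9] at h11
    by_contra hcon
    apply h8
    rw [t.red_eq_zero_iff h11]
    right
    have h12 := (t.reg_iff (mul_ne_zero hc0 h10)).1 h11
    rw [t.ord_mul hc0 h10] at h12 ⊢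
    omega
  · have h11 := h7 l'
    rw [h9] at h11
    have h12 := (t.reg_iff (mul_ne_zero hc0 hl')).1 h11
    rw [t.ord_mul hc0 hl'] at h12
    omega

theorem Mn.add {p q : E[X]} {n m r : ℤ} (h : Mn t p n) (h' : Mn t q m) (h'' : Mn t (p + q) r) :
    min n m ≤ r := by
  obtain ⟨⟨i, hi, hi'⟩, -⟩ := h''
  rw [coeff_add] at hi hi'
  by_cases hp : p.coeff i = 0
  · rw [hp, zero_add] at hi hi'
    have := h'.2 i hi
    omega
  by_cases hq : q.coeff i = 0
  · rw [hq, add_zero] at hi hi'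
    have := h.2 i hi
    omega
  have h1 := t.ord_add hp hq hi
  have h2 := h.2 i hp
  have h3 := h'.2 i hq
  omega

theorem Mn.C {x : E} (hx : x ≠ 0) : Mn t (C x) (t.ord x) := by
  refine ⟨⟨0, by simpa using hx, by simp⟩, fun j hj => ?_⟩
  rw [coeff_C] at hj ⊢
  split_ifs at hj ⊢ with h0
  · exact le_refl _
  · exact absurd rfl hj

theorem Mn.map {q : k[X]} (hq : q ≠ 0) : Mn t (q.map (algebraMap k E)) 0 := by
  have h1 : ∀ i, (q.map (algebraMap k E)).coeff i ≠ 0 → t.ord ((q.map (algebraMap k E)).coeff i) = 0 := by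
    intro i hi
    rw [coeff_map] at hi ⊢
    refine t.ord_const ?_
    intro h0
    rw [h0, map_zero] at hi
    exact hi rfl
  obtain ⟨i, hi⟩ : ∃ i, q.coeff i ≠ 0 := by
    by_contra hcon
    push Not at hcon
    exact hq (Polynomial.ext hcon)
  have hi' : (q.map (algebraMap k E)).coeff i ≠ 0 := by
    rw [coeff_map]
    exact (_root_.map_ne_zero _).2 hi
  exact ⟨⟨i, hi', h1 i hi'⟩, fun j hj => (h1 j hj).ge⟩

variable (t) in
/-- the Gauss valuation of `x` is `n` -/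
def VG {M : Type} [Field M] [Algebra E M] (σ x : M) (n : ℤ) : Prop :=
  ∃ (p q : E[X]) (a b : ℤ), Mn t p a ∧ Mn t q b ∧ x * aeval σ q = aeval σ p ∧ n = a - b

variable {M : Type} [Field M] [Algebra E M] {σ : M}

theorem aeval_ne {p : E[X]} (hσ : Transcendental E σ) (hp : p ≠ 0) : aeval σ p ≠ 0 :=
  fun h => hσ ⟨p, hp, h⟩

theorem VG.ne_zero (hσ : Transcendental E σ) {x : M} {n : ℤ} (h : VG t σ x n) : x ≠ 0 := by
  rintro rfl
  obtain ⟨p, q, a, b, hp, hq, h1, -⟩ := h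
  rw [zero_mul] at h1
  exact aeval_ne hσ hp.ne_zero h1.symm

theorem VG.unique (hσ : Transcendental E σ) {x : M} {n m : ℤ} (h : VG t σ x n)
    (h' : VG t σ x m) : n = m := by
  obtain ⟨p, q, a, b, hp, hq, h1, rfl⟩ := h
  obtain ⟨p', q', a', b', hp', hq', h1', rfl⟩ := h'
  have h2 : aeval σ (p * q') = aeval σ (p' * q) := by
    rw [map_mul, map_mul, ← h1, ← h1']
    ring
  have h3 : p * q' = p' * q := by
    by_contra hcon
    refine aeval_ne hσ (sub_ne_zero.2 hcon) ?_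
    rw [map_sub, h2, sub_self]
  have h4 := hp.mul hq'
  rw [h3] at h4
  have h5 := h4.unique (hp'.mul hq)
  omega

theorem VG.exists (hσ : Transcendental E σ) (hadj : IntermediateField.adjoin E {σ} = ⊤) {x : M}
    (hx : x ≠ 0) : ∃ n, VG t σ x n := by
  have h : x ∈ IntermediateField.adjoin E {σ} := by
    rw [hadj]
    trivial
  obtain ⟨p, q, h1⟩ := (IntermediateField.mem_adjoin_simple_iff E x).1 h
  have hp : p ≠ 0 := by
    rintro rfl
    apply hx
    rw [h1]
    simp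
  have hq : q ≠ 0 := by
    rintro rfl
    apply hx
    rw [h1]
    simp
  obtain ⟨a, ha⟩ := Mn.exists (t := t) hp
  obtain ⟨b, hb⟩ := Mn.exists (t := t) hq
  refine ⟨a - b, p, q, a, b, ha, hb, ?_, rfl⟩
  rw [h1, div_mul_cancel₀ _ (aeval_ne hσ hq)]

theorem VG.mul {x y : M} {n m : ℤ} (h : VG t σ x n) (h' : VG t σ y m) :
    VG t σ (x * y) (n + m) := by
  obtain ⟨p, q, a, b, hp, hq, h1, rfl⟩ := h
  obtain ⟨p', q', a', b', hp', hq', h1', rfl⟩ := h'
  refine ⟨p * p', q * q', _, _, hp.mul hp', hq.mul hq', ?_, by omega⟩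
  rw [map_mul, map_mul, ← h1, ← h1']
  ring

theorem VG.add (hσ : Transcendental E σ) {x y : M} {n m r : ℤ} (h : VG t σ x n)
    (h' : VG t σ y m) (h'' : VG t σ (x + y) r) : min n m ≤ r := by
  have h0 := h''.ne_zero hσ
  obtain ⟨p, q, a, b, hp, hq, h1, rfl⟩ := h
  obtain ⟨p', q', a', b', hp', hq', h1', rfl⟩ := h'
  have h2 : (x + y) * aeval σ (q * q') = aeval σ (p * q' + p' * q) := by
    rw [map_mul, map_add, map_mul, map_mul, ← h1, ← h1']
    ring
  have h3 : p * q' + p' * q ≠ 0 := by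
    intro h4
    rw [h4, map_zero] at h2
    rcases mul_eq_zero.1 h2 with h5 | h5
    · exact h0 h5
    · exact aeval_ne hσ (mul_ne_zero hq.ne_zero hq'.ne_zero) h5
  obtain ⟨c, hc⟩ := Mn.exists (t := t) h3
  have h4 : VG t σ (x + y) (c - (b + b')) := ⟨_, _, _, _, hc, hq.mul hq', h2, rfl⟩
  have h5 := h''.unique hσ h4
  have h6 := (hp.mul hq').add (hp'.mul hq) hc
  omega

end gauss

theorem t_GEX : T_GEX := by
  intro k _ _ _ E M _ _ _ _ _ _ _ σ hσ hadj t
  classical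
  let ordM : M → ℤ := fun x => if h : ∃ n, VG t σ x n then h.choose else 0
  have hord : ∀ {x : M} {n : ℤ}, VG t σ x n → ordM x = n := by
    intro x n h
    have h1 : ∃ n, VG t σ x n := ⟨n, h⟩
    simp only [ordM, dif_pos h1]
    exact h1.choose_spec.unique hσ h
  have hspec : ∀ {x : M}, x ≠ 0 → VG t σ x (ordM x) := by
    intro x hx
    obtain ⟨n, hn⟩ := VG.exists (t := t) hσ hadj hx
    rw [hord hn]
    exact hn
  have hconst : ∀ x : E, x ≠ 0 → VG t σ (algebraMap E M x) (t.ord x) := by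
    intro x hx
    refine ⟨C x, 1, t.ord x, 0, Mn.C hx, ?_, by simp, by simp⟩
    have := Mn.C (t := t) (one_ne_zero (α := E))
    rwa [t.ord_one, C_1] at this
  let v : Place k M :=
    { ord := ordM
      ord_zero := by
        have h : ¬ ∃ n, VG t σ (0 : M) n := fun ⟨n, hn⟩ => hn.ne_zero hσ rfl
        simp only [ordM, dif_neg h]
      ord_mul := fun {x y} hx hy => hord ((hspec hx).mul (hspec hy))
      ord_add := fun {x y} hx hy hxy => (hspec hx).add hσ (hspec hy) (hspec hxy)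
      ord_const := fun {c} hc => by
        have h1 : algebraMap k E c ≠ 0 := (_root_.map_ne_zero _).2 hc
        have h2 := hconst _ h1
        rw [t.ord_const hc, ← IsScalarTower.algebraMap_apply] at h2
        exact hord h2
      surj := by
        obtain ⟨x, hx, hx1⟩ := t.surj
        refine ⟨algebraMap E M x, (_root_.map_ne_zero _).2 hx, ?_⟩
        rw [hord (hconst x hx), hx1] }
  have hσ0 : σ ≠ 0 := by
    rintro rfl
    exact hσ isAlgebraic_zero
  have hr : ∀ q : k[X], q ≠ 0 → VG t σ (aeval σ q) 0 := by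
    intro q hq
    refine ⟨q.map (algebraMap k E), 1, 0, 0, Mn.map hq, ?_, ?_, by simp⟩
    · have := Mn.C (t := t) (one_ne_zero (α := E))
      rwa [t.ord_one, C_1] at this
    · rw [map_one, mul_one, aeval_map_algebraMap]
  have hvr : v.Reg σ := by
    right
    have := hr X X_ne_zero
    rw [aeval_X] at this
    exact (hord this).ge
  refine ⟨v, ⟨one_pos, fun f => ?_⟩, hvr, ?_⟩
  · by_cases hf : f = 0
    · rw [hf, map_zero, v.ord_zero, t.ord_zero, mul_zero]
    · rw [Nat.cast_one, one_mul]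
      exact hord (hconst f hf)
  · rintro ⟨q, hq, h0⟩
    have h1 : ∀ q : k[X], v.Reg (aeval σ q) ∧ v.red (aeval σ q) = aeval (v.red σ) q := by
      intro q
      have h2 : aeval σ q = ∑ i ∈ Finset.range (q.natDegree + 1), algebraMap k M (q.coeff i) * σ ^ i := by
        rw [aeval_def, eval₂_eq_sum_range]
      obtain ⟨h3, h4⟩ := red_sum v (Finset.range (q.natDegree + 1))
        (fun i => algebraMap k M (q.coeff i) * σ ^ i) fun i _ =>
          v.reg_mul (v.reg_const _) (reg_pow v hvr i)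
      rw [h2]
      refine ⟨h3, ?_⟩
      rw [h4, aeval_def, eval₂_eq_sum_range]
      refine Finset.sum_congr rfl fun i _ => ?_
      rw [v.red_mul (v.reg_const _) (reg_pow v hvr i), v.red_pow hvr]
      rfl
    have h2 : v.ord (aeval σ q) = 0 := hord (hr q hq)
    have h3 : aeval σ q ≠ 0 := (hr q hq).ne_zero hσ
    have h4 := v.red_ne_zero h3 h2
    rw [(h1 q).2] at h4
    exact h4 h0

end Pool.Agent.Z15P.Z15.H
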