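import Pool.Agent.Z15P.Z15.H.Stm

/-!
Uniqueness of the Gauss extension.
-/

set_option autoImplicit false
set_option linter.all false

open FF FF.PP Polynomial Pool.Agent.Z15P.Z15.H.Stm

namespace Pool.Agent.Z15P.Z15.H

theorem exists_const {k E : Type} [Field k] [IsAlgClosed k] [Infinite k] [Field E] [Algebra k E]
    [IsFF k E] (t : Place k E) (y : t.RF) : ∃ c : k, algebraMap k t.RF c = y := by
  have h : Algebra.IsIntegral k t.RF := inferInstance
  exact (IsAlgClosed.algebraMap_bijective_of_isIntegral (k := k) (K := t.RF)).2 y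

theorem red_sum {k M I : Type} [Field k] [Field M] [Algebra k M] (v : Place k M) (s : Finset I)
    (f : I → M) (h : ∀ i ∈ s, v.Reg (f i)) :
    v.Reg (∑ i ∈ s, f i) ∧ v.red (∑ i ∈ s, f i) = ∑ i ∈ s, v.red (f i) := by
  classical
  induction s using Finset.induction_on with
  | empty => exact ⟨by rw [Finset.sum_empty]; exact v.reg_zero, by simp [v.red_zero]⟩
  | insert i s hi ih =>
    obtain ⟨h1, h2⟩ := ih fun j hj => h j (Finset.mem_insert_of_mem hj)
    have h3 := h i (Finset.mem_insert_self _ _)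
    rw [Finset.sum_insert hi, Finset.sum_insert hi, ← h2]
    exact ⟨v.reg_add h3 h1, v.red_add h3 h1⟩

theorem reg_pow {k M : Type} [Field k] [Field M] [Algebra k M] (v : Place k M) {x : M}
    (h : v.Reg x) (n : ℕ) : v.Reg (x ^ n) := by
  induction n with
  | zero => rw [pow_zero]; exact v.reg_one
  | succ n ih => rw [pow_succ]; exact v.reg_mul ih h

section

variable {k : Type} [Field k] [IsAlgClosed k] [Infinite k] {E M : Type} [Field E]
  [Algebra k E] [IsFF k E] [Field M] [Algebra k M] [Algebra E M] [IsScalarTower k E M]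

theorem red_poly {t : Place k E} {v : Place k M} {e : ℕ} (hv : Over v t e) {σ : M} (hσ : v.Reg σ)
    (p : E[X]) (hp : ∀ i, t.Reg (p.coeff i)) : ∃ q : k[X],
      (∀ i, t.red (p.coeff i) = algebraMap k t.RF (q.coeff i)) ∧ v.Reg (aeval σ p) ∧
      v.red (aeval σ p) = aeval (v.red σ) q := by
  classical
  have h1 : ∀ i, ∃ c : k, algebraMap k t.RF c = t.red (p.coeff i) := fun i => exists_const t _
  choose c hc using h1
  have hterm : ∀ i, v.Reg (algebraMap E M (p.coeff i) * σ ^ i) ∧
      v.red (algebraMap E M (p.coeff i) * σ ^ i) = algebraMap k v.RF (c i) * v.red σ ^ i := by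
    intro i
    have h2 := hv.reg.2 (hp i)
    have h3 : v.red (algebraMap E M (p.coeff i)) = algebraMap k v.RF (c i) := by
      rw [← hv.resMap_red (hp i), ← hc i, AlgHom.commutes]
    refine ⟨v.reg_mul h2 (reg_pow v hσ i), ?_⟩
    rw [v.red_mul h2 (reg_pow v hσ i), h3, v.red_pow hσ]
  refine ⟨∑ i ∈ Finset.range (p.natDegree + 1), monomial i (c i), ?_, ?_⟩
  · intro i
    rw [finset_sum_coeff]
    simp only [coeff_monomial]
    rw [Finset.sum_ite_eq' (Finset.range (p.natDegree + 1)) i]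
    split_ifs with h
    · exact (hc i).symm
    · have h2 : p.coeff i = 0 := by
        apply coeff_eq_zero_of_natDegree_lt
        simpa using h
      rw [h2, t.red_zero, map_zero]
  · have h2 : aeval σ p = ∑ i ∈ Finset.range (p.natDegree + 1), algebraMap E M (p.coeff i) * σ ^ i := by
      rw [aeval_def, eval₂_eq_sum_range]
    obtain ⟨h3, h4⟩ := red_sum v (Finset.range (p.natDegree + 1))
      (fun i => algebraMap E M (p.coeff i) * σ ^ i) fun i _ => (hterm i).1
    rw [h2]
    refine ⟨h3, ?_⟩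
    rw [h4, map_sum]
    refine Finset.sum_congr rfl fun i _ => ?_
    rw [(hterm i).2, aeval_monomial]

/-- the coefficient of smallest order -/
theorem exists_min (t : Place k E) {p : E[X]} (hp : p ≠ 0) : ∃ i, p.coeff i ≠ 0 ∧
    ∀ j, t.Reg ((p.coeff i)⁻¹ * p.coeff j) := by
  classical
  obtain ⟨i, hi, hmin⟩ := Finset.exists_min_image p.support (fun i => t.ord (p.coeff i))
    (by rwa [Finset.nonempty_iff_ne_empty, Ne, support_eq_empty])
  rw [mem_support_iff] at hi
  refine ⟨i, hi, fun j => ?_⟩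
  by_cases hj : p.coeff j = 0
  · rw [hj, mul_zero]
    exact t.reg_zero
  · right
    rw [t.ord_mul (inv_ne_zero hi) hj, t.ord_inv]
    have := hmin j (mem_support_iff.2 hj)
    omega

/-- the order of a polynomial in `σ` -/
theorem ord_poly {t : Place k E} {v : Place k M} {e : ℕ} (hv : Over v t e) {σ : M} (hσ : v.Reg σ)
    (htr : Transcendental k (v.red σ)) (p : E[X]) (i : ℕ) (hi : p.coeff i ≠ 0)
    (hmin : ∀ j, t.Reg ((p.coeff i)⁻¹ * p.coeff j)) :
    aeval σ p ≠ 0 ∧ v.ord (aeval σ p) = e * t.ord (p.coeff i) := by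
  obtain ⟨q, hq, h1, h2⟩ := red_poly hv hσ (C (p.coeff i)⁻¹ * p) (fun j => by
    rw [coeff_C_mul]
    exact hmin j)
  have h3 : q ≠ 0 := by
    rintro rfl
    have := hq i
    rw [coeff_C_mul, inv_mul_cancel₀ hi, t.red_one] at this
    simp at this
  have h4 : aeval (v.red σ) q ≠ 0 := fun h => htr ⟨q, h3, h⟩
  rw [← h2] at h4
  have h5 : aeval σ (C (p.coeff i)⁻¹ * p) ≠ 0 := by
    intro h0
    rw [h0, v.red_zero] at h4
    exact h4 rfl
  have h6 : v.ord (aeval σ (C (p.coeff i)⁻¹ * p)) = 0 := by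
    by_contra hcon
    apply h4
    rw [v.red_eq_zero_iff h1]
    right
    have := (v.reg_iff h5).1 h1
    omega
  rw [map_mul, aeval_C] at h5 h6
  have h7 : aeval σ p ≠ 0 := right_ne_zero_of_mul h5
  have h8 : algebraMap E M (p.coeff i)⁻¹ ≠ 0 := left_ne_zero_of_mul h5
  refine ⟨h7, ?_⟩
  rw [v.ord_mul h8 h7, hv.2, t.ord_inv] at h6
  linarith

theorem exists_frac {σ : M} (hadj : IntermediateField.adjoin E {σ} = ⊤) (x : M) :
    ∃ p q : E[X], x = aeval σ p / aeval σ q := by
  have h : x ∈ IntermediateField.adjoin E {σ} := by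
    rw [hadj]
    trivial
  rwa [IntermediateField.mem_adjoin_simple_iff] at h

theorem index_one {t : Place k E} {v : Place k M} {e : ℕ} (hv : Over v t e) {σ : M}
    (hadj : IntermediateField.adjoin E {σ} = ⊤) (hσ : v.Reg σ)
    (htr : Transcendental k (v.red σ)) : e = 1 := by
  obtain ⟨x, hx, hx1⟩ := v.surj
  obtain ⟨p, q, rfl⟩ := exists_frac hadj x
  have hp : p ≠ 0 := by
    rintro rfl
    simp at hx
  have hq : q ≠ 0 := by
    rintro rfl
    simp at hx
  obtain ⟨i, hi, hi'⟩ := exists_min t hp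
  obtain ⟨j, hj, hj'⟩ := exists_min t hq
  obtain ⟨h1, h2⟩ := ord_poly hv hσ htr p i hi hi'
  obtain ⟨h3, h4⟩ := ord_poly hv hσ htr q j hj hj'
  rw [v.ord_div h1 h3, h2, h4, ← mul_sub] at hx1
  have h5 : (e : ℤ) ∣ 1 := Dvd.intro _ hx1
  have h6 : (e : ℤ) = 1 := Int.eq_one_of_dvd_one (by positivity) h5
  exact_mod_cast h6

end

theorem t_GUN : T_GUN := by
  intro k _ _ _ E M _ _ _ _ _ _ _ σ hσt hadj t v e hv hσ htr
  have he := index_one hv hadj hσ htr
  subst he
  refine ⟨?_, ?_⟩
  · intro w e' hw hσ' htr'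
    have he' := index_one hw hadj hσ' htr'
    subst he'
    have h : ∀ x : M, w.ord x = v.ord x := by
      intro x
      obtain ⟨p, q, rfl⟩ := exists_frac hadj x
      by_cases hp : p = 0
      · subst hp
        simp [v.ord_zero, w.ord_zero]
      by_cases hq : q = 0
      · subst hq
        simp [v.ord_zero, w.ord_zero]
      obtain ⟨i, hi, hi'⟩ := exists_min t hp
      obtain ⟨j, hj, hj'⟩ := exists_min t hq
      obtain ⟨h1, h2⟩ := ord_poly hv hσ htr p i hi hi'
      obtain ⟨h3, h4⟩ := ord_poly hv hσ htr q j hj hj'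
      obtain ⟨h5, h6⟩ := ord_poly hw hσ' htr' p i hi hi'
      obtain ⟨h7, h8⟩ := ord_poly hw hσ' htr' q j hj hj'
      rw [v.ord_div h1 h3, w.ord_div h5 h7, h2, h4, h6, h8]
    exact Place.ext (funext h)
  · rw [eq_top_iff]
    rintro y -
    obtain ⟨x, hx, rfl⟩ := v.red_surjective y
    by_cases hx0 : x = 0
    · rw [hx0, v.red_zero]
      exact zero_mem _
    obtain ⟨p, q, hpq⟩ := exists_frac hadj x
    have hp : p ≠ 0 := by
      rintro rfl
      apply hx0
      rw [hpq]
      simp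
    have hq : q ≠ 0 := by
      rintro rfl
      apply hx0
      rw [hpq]
      simp
    obtain ⟨i, hi, hi'⟩ := exists_min t hp
    obtain ⟨j, hj, hj'⟩ := exists_min t hq
    obtain ⟨h1, h2⟩ := ord_poly hv hσ htr p i hi hi'
    obtain ⟨h3, h4⟩ := ord_poly hv hσ htr q j hj hj'
    have h5 : 0 ≤ v.ord x := (v.reg_iff hx0).1 hx
    rw [hpq, v.ord_div h1 h3, h2, h4] at h5
    have h6 : 0 ≤ t.ord (p.coeff i) - t.ord (q.coeff j) := by
      simpa using h5
    obtain ⟨q', hq1, hq2, hq3⟩ := red_poly hv hσ (C (q.coeff j)⁻¹ * q) (fun n => by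
      rw [coeff_C_mul]
      exact hj' n)
    obtain ⟨p', hp1, hp2, hp3⟩ := red_poly hv hσ (C (q.coeff j)⁻¹ * p) (fun n => by
      rw [coeff_C_mul]
      have h7 : (q.coeff j)⁻¹ * p.coeff n = ((q.coeff j)⁻¹ * p.coeff i) * ((p.coeff i)⁻¹ * p.coeff n) := by
        field_simp
      rw [h7]
      refine t.reg_mul (Or.inr ?_) (hi' n)
      rw [t.ord_mul (inv_ne_zero hj) hi, t.ord_inv]
      omega)
    have hq4 : q' ≠ 0 := by
      rintro rfl
      have := hq1 j
      rw [coeff_C_mul, inv_mul_cancel₀ hj, t.red_one] at this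
      simp at this
    have hq5 : aeval (v.red σ) q' ≠ 0 := fun h => htr ⟨q', hq4, h⟩
    have h8 : v.red x * aeval (v.red σ) q' = aeval (v.red σ) p' := by
      rw [← hq3, ← hp3, ← v.red_mul hx hq2]
      congr 1
      rw [hpq, map_mul, map_mul]
      field_simp
    have h9 : v.red x = aeval (v.red σ) p' / aeval (v.red σ) q' := by
      rw [eq_div_iff hq5, h8]
    rw [h9]
    refine div_mem ?_ ?_
    · exact (IntermediateField.mem_adjoin_simple_iff k _).2 ⟨p', 1, by simp⟩
    · exact (IntermediateField.mem_adjoin_simple_iff k _).2 ⟨q', 1, by simp⟩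

end Pool.Agent.Z15P.Z15.H
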