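import Pool.Agent.Z15P.Z15.H.Defs2

/-!
Statements of lemmas (tasks of helper15).
-/

set_option autoImplicit false

open FF FF.PP MvPolynomial

namespace Pool.Agent.Z15P.Z15.H.Stm

/-! ### CYC: the cycle of a point -/

def T_CYC : Prop :=
  ∀ (k : Type) [Field k] [IsAlgClosed k] [Infinite k] (ι E : Type) [Fintype ι] [Field E] [Algebra k E],
    -- scaling
    (∀ (P : ι → E) (c : E), c ≠ 0 → cyc k (fun i => c * P i) = cyc k P) ∧
    -- isomorphisms
    (∀ (E' : Type) [Field E'] [Algebra k E'] (φ : E →ₐ[k] E'), Function.Surjective φ →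
      ∀ P : ι → E, cyc k (fun i => φ (P i)) = cyc k P) ∧
    -- finite extensions
    (∀ (E' : Type) [Field E'] [Algebra k E'] [Algebra E E'] [IsScalarTower k E E']
      [FiniteDimensional E E'] (P : ι → E),
      cyc k (fun i => algebraMap E E' (P i)) = Module.finrank E E' • cyc k P) ∧
    -- constant points
    (IsFF k E → ∀ (p : ι → k), cyc k (fun i => algebraMap k E (p i)) = 0) ∧
    -- lines
    (∀ (θ : E), Transcendental k θ → IntermediateField.adjoin k {θ} = ⊤ →
      ∀ a b : ι → k, LinearIndependent k ![a, b] →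
      cyc k (fun i => algebraMap k E (a i) + θ * algebraMap k E (b i)) = line a b)

/-! ### GAUSS: extensions of places to purely transcendental extensions -/

/-- existence of the Gauss extension of the place `t` of `E` to `M = E(σ)` -/
def T_GEX : Prop :=
  ∀ (k : Type) [Field k] [IsAlgClosed k] [Infinite k] (E M : Type) [Field E] [Field M] [Algebra k E]
    [Algebra k M] [Algebra E M] [IsScalarTower k E M] [IsFF k E] (σ : M), Transcendental E σ →
    IntermediateField.adjoin E {σ} = ⊤ → ∀ t : Place k E,
    ∃ v : Place k M, Over v t 1 ∧ v.Reg σ ∧ Transcendental k (v.red σ)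

/-- uniqueness and residue field of the Gauss extension -/
def T_GUN : Prop :=
  ∀ (k : Type) [Field k] [IsAlgClosed k] [Infinite k] (E M : Type) [Field E] [Field M] [Algebra k E]
    [Algebra k M] [Algebra E M] [IsScalarTower k E M] [IsFF k E] (σ : M), Transcendental E σ →
    IntermediateField.adjoin E {σ} = ⊤ → ∀ (t : Place k E) (v : Place k M) (e : ℕ), Over v t e →
    v.Reg σ → Transcendental k (v.red σ) →
    (∀ (w : Place k M) (e' : ℕ), Over w t e' → w.Reg σ → Transcendental k (w.red σ) → w = v) ∧
    IntermediateField.adjoin k {v.red σ} = ⊤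

/-- the place `σ = 0` of `M = E(σ)` -/
def T_TRIV : Prop :=
  ∀ (k : Type) [Field k] [IsAlgClosed k] [Infinite k] (E M : Type) [Field E] [Field M] [Algebra k E]
    [Algebra k M] [Algebra E M] [IsScalarTower k E M] [IsFF k E] (σ : M), Transcendental E σ →
    IntermediateField.adjoin E {σ} = ⊤ →
    ∃ v : Place k M, (∀ x : E, x ≠ 0 → v.ord (algebraMap E M x) = 0) ∧ v.ord σ = 1 ∧
      (∀ z : v.RF, ∃ x : E, v.red (algebraMap E M x) = z) ∧
      ∀ w : Place k M, (∀ x : E, x ≠ 0 → w.ord (algebraMap E M x) = 0) → 0 < w.ord σ → w = v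

/-- `E(X)` is the function field of a surface -/
def T_SURF : Prop :=
  ∀ (k : Type) [Field k] [IsAlgClosed k] [Infinite k] (E M : Type) [Field E] [Field M] [Algebra k E]
    [Algebra k M] [Algebra E M] [IsScalarTower k E M] [IsFF k E] (σ : M), Transcendental E σ →
    IntermediateField.adjoin E {σ} = ⊤ → IsSurf k M

/-! ### LOC: limits of families of lines -/

/-- limits exist; for almost all `t` the limit is given by the given basis; limits are unique -/
def T_LOC : Prop :=
  ∀ (k : Type) [Field k] [IsAlgClosed k] [Infinite k] (ι E : Type) [Fintype ι] [Field E] [Algebra k E]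
    [IsFF k E] (A B : ι → E), LinearIndependent E ![A, B] →
    (∀ t : Place k E, ∃ a b : ι → k, IsLim t A B a b) ∧
    (∃ S : Finset (Place k E), ∀ t ∉ S, ∃ a b : ι → k, LinearIndependent k ![a, b] ∧
      (∀ i, t.Reg (A i) ∧ t.red (A i) = algebraMap k t.RF (a i)) ∧
      ∀ i, t.Reg (B i) ∧ t.red (B i) = algebraMap k t.RF (b i)) ∧
    ∀ (t : Place k E) (a b a' b' : ι → k), IsLim t A B a b → IsLim t A B a' b' →
      line a b = line a' b'

/-! ### LIM: properties of limits -/

/-- the span of `a`, `b` consists of the reductions of the regular vectors in the span of `A`, `B`;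
equations specialise; the class of a line depends only on the plane -/
def T_LIM : Prop :=
  ∀ (k : Type) [Field k] [IsAlgClosed k] [Infinite k] (ι E : Type) [Fintype ι] [Field E] [Algebra k E]
    [IsFF k E] (A B : ι → E), LinearIndependent E ![A, B] → ∀ (t : Place k E) (a b : ι → k),
    IsLim t A B a b →
    (∀ (c c' : E) (w : ι → k), (∀ i, t.Reg (c * A i + c' * B i) ∧
      t.red (c * A i + c' * B i) = algebraMap k t.RF (w i)) → w ∈ Submodule.span k {a, b}) ∧
    (∀ (F : MvPolynomial ι k), (∀ (M : Type) [Field M] [Algebra k M] [Algebra E M]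
      [IsScalarTower k E M] (s : M), aeval (fun i => algebraMap E M (A i) + s * algebraMap E M (B i)) F
        = 0) → (∃ d, F.IsHomogeneous d) → ∀ α β : k, eval (fun i => α * a i + β * b i) F = 0) ∧
    ∀ a' b' : ι → k, a' ∈ Submodule.span k {a, b} → b' ∈ Submodule.span k {a, b} →
      LinearIndependent k ![a', b'] → line a' b' = line a b

/-! ### EXP: directions of high contact -/

/-- `f` is homogeneous of degree `d`, `x` a vector over an algebraically closed field `L`. If there are
more variables (in the set `S`) than the number of elements of `J` (the degrees `j` in `J` are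
positive), then there is a vector `z ≠ 0` with support in `S` such that
`f(α x + β z)` does not contain `α^(d-j) β^j` for `j ∈ J`. -/
def T_EXP : Prop :=
  ∀ (k L κ : Type) [Field k] [Field L] [IsAlgClosed L] [Algebra k L] [Fintype κ] (d : ℕ)
    (f : MvPolynomial κ k), f.IsHomogeneous d → ∀ (x : κ → L) (S : Finset κ) (J : Finset ℕ), 0 ∉ J →
    J.card < S.card → ∃ (z : κ → L) (c : ℕ → L), z ≠ 0 ∧ (∀ i ∉ S, z i = 0) ∧
      (∀ (A : Type) [CommRing A] [Algebra k A] [Algebra L A] [IsScalarTower k L A] (α β : A),
        aeval (fun i => α * algebraMap L A (x i) + β * algebraMap L A (z i)) f =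
          ∑ j ∈ Finset.range (d + 1), algebraMap L A (c j) * α ^ (d - j) * β ^ j) ∧
      ∀ j ∈ J, c j = 0

/-! ### SPEC: reductions of points over function fields -/

/-- every point over `E` has a primitive representative at `t`, and its reduction has coordinates in
`k`; polynomial equations and linear relations specialise -/
def T_SPEC : Prop :=
  ∀ (k : Type) [Field k] [IsAlgClosed k] [Infinite k] (κ E : Type) [Fintype κ] [Field E] [Algebra k E]
    [IsFF k E] (t : Place k E) (e : κ → E), e ≠ 0 →
    (∃ (c : E) (a : κ → k), c ≠ 0 ∧ a ≠ 0 ∧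
      ∀ i, t.Reg (c * e i) ∧ t.red (c * e i) = algebraMap k t.RF (a i)) ∧
    ∀ (a : κ → k), (∀ i, t.Reg (e i) ∧ t.red (e i) = algebraMap k t.RF (a i)) →
      ∀ G : MvPolynomial κ k, t.Reg (aeval e G) ∧ t.red (aeval e G) = algebraMap k t.RF (eval a G)

/-! ### DEG: the divisor of a function has degree zero -/

/-- the degree of the divisor of `τ` is zero, and `τ` has zeros -/
def T_DEG : Prop :=
  ∀ (k : Type) [Field k] [IsAlgClosed k] [Infinite k] (E : Type) [Field E] [Algebra k E]
    [IsFF k E] (τ : E), Transcendental k τ →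
    ∃ (S S' : Finset (Place k E)), (∀ t, t ∈ S ↔ 0 < t.ord τ) ∧ (∀ t, t ∈ S' ↔ t.ord τ < 0) ∧
      S.Nonempty ∧ ∑ t ∈ S, t.ord τ + ∑ t ∈ S', t.ord τ = 0

/-! ### ROOT: points on a pencil of lines -/

/-- `G` is homogeneous of positive degree in `κ`, and `p0, q0` is a basis of a plane. Over a finite
extension `E` of `k(τ)` there is a point of `G = 0` on the line through `p0 + τ p1` and
`q0 + τ q1`. -/
def T_ROOT : Prop :=
  ∀ (k : Type) [Field k] [IsAlgClosed k] [Infinite k] (κ : Type) [Fintype κ] (d : ℕ), 0 < d →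
    ∀ (G : MvPolynomial κ k), G.IsHomogeneous d → ∀ (p0 q0 p1 q1 : κ → k),
    LinearIndependent k ![p0, q0] →
    ∃ (E : Type) (_ : Field E) (_ : Algebra k E) (_ : IsFF k E) (τ α β : E), Transcendental k τ ∧
      (α ≠ 0 ∨ β ≠ 0) ∧
      aeval (fun i => α * (algebraMap k E (p0 i) + τ * algebraMap k E (p1 i)) +
        β * (algebraMap k E (q0 i) + τ * algebraMap k E (q1 i))) G = 0 ∧
      (fun i => α * (algebraMap k E (p0 i) + τ * algebraMap k E (p1 i)) +
        β * (algebraMap k E (q0 i) + τ * algebraMap k E (q1 i))) ≠ 0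

end Pool.Agent.Z15P.Z15.H.Stm
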